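import Mathlib
import Pool.Agent.Work.MP_eab3e1_ag.Defs
import Pool.Agent.Work.MP_eab3e1_ag.Main

set_option autoImplicit false

namespace Pool.Agent.Results.MP_eab3e1_ag.TypeBCounterexample

open Polynomial Pool.Agent.Work.MP_eab3e1_ag

universe u

/-- Over every field of characteristic zero (in particular over every algebraically closed one)
there is an affine variety `Y = Spec R` of type B such that the modified Derksen invariant of
`Y × A¹` differs from `R ⊕ ⨁_{i>0} I uⁱ`. -/
theorem result (K : Type u) [Field K] [CharZero K] :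
    ∃ (R : Type u) (_ : CommRing R) (_ : IsDomain R) (_ : Algebra K R),
      Algebra.FiniteType K R ∧ IsTypeB K R ∧
      (HDstar K R[X] : Set R[X]) ≠ {p : R[X] | ∀ i : ℕ, 0 < i → p.coeff i ∈ lndIdeal K R} := by
  obtain ⟨R, h1, h2, h3, h4, h5, p, hp, hp1⟩ := final K
  refine ⟨R, h1, h2, h3, h4, h5, ?_⟩
  intro h
  have : p ∈ {p : R[X] | ∀ i : ℕ, 0 < i → p.coeff i ∈ lndIdeal K R} := by
    rw [← h]; exact hp
  exact hp1 (this 1 one_pos)

end Pool.Agent.Results.MP_eab3e1_ag.TypeBCounterexample
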